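import Pool.Agent.QSX.StmtsG

/-!
# Squad QSX, row PTH: the straight path
-/

set_option autoImplicit false

namespace Pool.Agent.QSX.H37

open Pool.Agent.QSX

theorem pth : PthStmt := by
  intro V _ _ _ p
  have hp : Continuous p := LinearMap.continuous_of_finiteDimensional p
  have : ProperSpace V := FiniteDimensional.proper ℝ V
  obtain ⟨a₀, h0, hmin⟩ := (isCompact_closedBall (0 : V) 1).exists_isMinOn
    ⟨0, by simp⟩ hp.continuousOn
  rw [mem_closedBall_zero_iff] at h0
  refine ⟨a₀, h0, ?_⟩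
  intro R ε t hR ht a ha
  have hpa : p a₀ ≤ p a := hmin (mem_closedBall_zero_iff.2 ha)
  set T : ℕ := ⌈2 * R⌉₊ with hT
  have hT1 : 2 * R ≤ T := Nat.le_ceil _
  have hT2 : (T : ℝ) ≤ 2 * R + 1 := (Nat.ceil_lt_add_one (by linarith)).le
  have hT0 : (0 : ℝ) < T := by linarith
  set E := Real.exp (R * (p a + ε)) with hE
  have hball : ∀ j : ℕ, j ≤ T → ‖a + ((j : ℝ) / T) • (a₀ - a)‖ ≤ 1 := by
    intro j hj
    have hj1 : (j : ℝ) / T ≤ 1 := by
      rw [div_le_one hT0]; exact_mod_cast hj
    have hj0 : 0 ≤ (j : ℝ) / T := by positivity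
    have e : a + ((j : ℝ) / T) • (a₀ - a) = (1 - (j : ℝ) / T) • a + ((j : ℝ) / T) • a₀ := by
      module
    rw [e]
    calc ‖(1 - (j : ℝ) / T) • a + ((j : ℝ) / T) • a₀‖
        ≤ ‖(1 - (j : ℝ) / T) • a‖ + ‖((j : ℝ) / T) • a₀‖ := norm_add_le _ _
      _ = (1 - (j : ℝ) / T) * ‖a‖ + ((j : ℝ) / T) * ‖a₀‖ := by
          rw [norm_smul, norm_smul, Real.norm_of_nonneg (by linarith), Real.norm_of_nonneg hj0]
      _ ≤ (1 - (j : ℝ) / T) * 1 + ((j : ℝ) / T) * 1 :=
          add_le_add (mul_le_mul_of_nonneg_left ha (by linarith))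
            (mul_le_mul_of_nonneg_left h0 hj0)
      _ = 1 := by ring
  have key : ∀ j : ℕ, j ≤ T → |t a - t (a + ((j : ℝ) / T) • (a₀ - a))| ≤ j * E := by
    intro j
    induction j with
    | zero => intro _; simp
    | succ j ih =>
      intro hj
      have h1 := ih (by omega)
      have h2 := ht (a + ((j : ℝ) / T) • (a₀ - a)) (a + (((j + 1 : ℕ) : ℝ) / T) • (a₀ - a))
        (hball j (by omega)) (hball (j + 1) hj) (by
          have e : a + ((j : ℝ) / T) • (a₀ - a) - (a + (((j + 1 : ℕ) : ℝ) / T) • (a₀ - a)) =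
              (-(1 / (T : ℝ))) • (a₀ - a) := by
            push_cast
            rw [add_div]
            module
          rw [e, norm_smul, norm_neg, Real.norm_of_nonneg (by positivity)]
          have h3 : ‖a₀ - a‖ ≤ 2 := (norm_sub_le _ _).trans (by linarith)
          calc R * (1 / (T : ℝ) * ‖a₀ - a‖) ≤ R * (1 / (T : ℝ) * 2) :=
                mul_le_mul_of_nonneg_left (mul_le_mul_of_nonneg_left h3 (by positivity))
                  (by linarith)
            _ = 2 * R / T := by ring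
            _ ≤ 1 := by rw [div_le_one hT0]; exact hT1)
      have h4 : p (a + ((j : ℝ) / T) • (a₀ - a)) ≤ p a := by
        rw [map_add, map_smul, map_sub, smul_eq_mul]
        have : (j : ℝ) / T * (p a₀ - p a) ≤ 0 :=
          mul_nonpos_of_nonneg_of_nonpos (by positivity) (by linarith)
        linarith
      have h5 : Real.exp (R * (p (a + ((j : ℝ) / T) • (a₀ - a)) + ε)) ≤ E := by
        apply Real.exp_le_exp.2
        exact mul_le_mul_of_nonneg_left (by linarith) (by linarith)
      calc |t a - t (a + (((j + 1 : ℕ) : ℝ) / T) • (a₀ - a))|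
          ≤ |t a - t (a + ((j : ℝ) / T) • (a₀ - a))| +
            |t (a + ((j : ℝ) / T) • (a₀ - a)) - t (a + (((j + 1 : ℕ) : ℝ) / T) • (a₀ - a))| :=
              abs_sub_le _ _ _
        _ ≤ j * E + E := add_le_add h1 (h2.trans h5)
        _ = ((j + 1 : ℕ) : ℝ) * E := by push_cast; ring
  have h6 := key T le_rfl
  rw [div_self hT0.ne', one_smul, add_sub_cancel] at h6
  exact h6.trans (mul_le_mul_of_nonneg_right hT2 (Real.exp_pos _).le)

end Pool.Agent.QSX.H37
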